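import Pool.Agent.N983.RT.CS
import Pool.Agent.N983.RT.IND
import Pool.Agent.N983.RT.ESY
import Pool.Agent.N983.RT.TAIL
import Pool.Agent.N983.RT.LAT
import Pool.Agent.N983.WK.CVB
import Pool.Agent.N983.WK.BAL
import Pool.Agent.N983.WK.SQ
import Pool.Agent.N983.WK.MSB
import Pool.Agent.N983.WK.DF

/-!
Energy conservation for the randomly decimated Euler equations on the torus `(ℝ / 2πℤ) ^ 3` (fractal
Fourier decimation): every pair `k, -k` of opposite wave vectors is kept, independently of the
others, with probability at most `|k| ^ (-a)`, and the equations are projected on the wave vectors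
which are kept. Their number in a ball of radius `R` is about `R ^ D`, `D = 3 - a`.

Almost surely all weak solutions which are bounded in the Sobolev space `H ^ σ` conserve the energy
if `σ > 5 / 6 - a / 2` and `σ > 1 / 3`. The threshold is less than `5 / 6` for every dimension
`D < 3`.
-/

set_option autoImplicit false

namespace Pool.Agent.Results.MP_fea353_an.FractalDecimationConserves

open MeasureTheory ProbabilityTheory Filter Topology Pool.Agent.N983.RT Pool.Agent.N983.WK

theorem result (a : ℝ) (ha : 0 ≤ a) (Ω : Type) [MeasurableSpace Ω] (μ : Measure Ω)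
    [IsProbabilityMeasure μ] (Y : Sym2 Wv → Ω → ℝ) (hY : ∀ c, Measurable (Y c))
    (hi : iIndepFun Y μ)
    (hs : ∀ k, k ≠ 0 → μ {ω | Y s(k, -k) ω = 1} ≤ ENNReal.ofReal (nsq k ^ (-a / 2))) :
    ∀ᵐ ω ∂μ, ∀ σ T : ℝ, 1 / 3 < σ → 5 / 6 - a / 2 < σ → σ ≤ 1 → 0 ≤ T →
      ∀ u : ℝ → Fld, IsEul (dec (kept Y ω)) σ T u →
        ∃ e : ℝ, ∀ t ∈ Set.Icc 0 T, Tendsto (fun n => En 0 n (u t)) atTop (𝓝 e) :=
  df_main t_CS t_IND t_ESY t_TAIL t_LAT t_CVB t_BAL t_SQ t_MSB a ha Ω μ Y hY hi hs

end Pool.Agent.Results.MP_fea353_an.FractalDecimationConserves
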