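import Pool.Agent.N983.RT.HOE2
import Pool.Agent.N983.RT.UNI2
import Pool.Agent.N983.RT.DIG
import Pool.Agent.N983.WK.Asm8
import Pool.Agent.N983.WK.CVB
import Pool.Agent.N983.WK.BAL
import Pool.Agent.N983.WK.SQ
import Pool.Agent.N983.WK.MSB
import Pool.Agent.N983.WK.FBR
import Pool.Agent.N983.WK.EF1
import Pool.Agent.N983.WK.EF2

/-!
Energy conservation for the Euler equations on the torus `(ℝ / 2πℤ) ^ 3` with random coefficients
of the triad interactions.

In Fourier variables the Euler equations are `∂ₜ uₘ = - i Pₘ ∑_{k + l = m} (u_k · l) u_l`. We put a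
random coefficient in front of the interaction of the triad `k, l, -m`; it is the same for the
permutations of the triad and for the opposite triad, and the coefficients of different triads are
independent and at most one in absolute value. Almost surely, for all `σ` in `(1/3, 1]`: if the mean
of the coefficient of each triad is at most a constant times
`(longest)^(2β) / (shortest)^(5/2 - σ)` for some `β < σ`, then all weak solutions which are bounded
in the Sobolev space `H^σ` conserve the energy.

If the coefficients are independent random signs then this holds for all `σ > 1/3`. If all of them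
are equal to one, then the condition means `σ > 5/6`. In between, the coefficients may be those of
the Euler equations themselves for all triads whose shortest wave vector has at most the length
`N^θ`, `N` the length of the longest one, `θ < 4σ/(5 - 2σ)`, and independent random signs for the
other triads.
-/

set_option autoImplicit false

namespace Pool.Agent.Results.MP_fea353_an.RandomTriadsConserve

open MeasureTheory ProbabilityTheory Filter Topology Pool.Agent.N983.RT Pool.Agent.N983.WK

theorem result (Ω : Type) [MeasurableSpace Ω] (μ : Measure Ω) [IsProbabilityMeasure μ]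
    (X : Sym2 (Finset Wv) → Ω → ℝ) (hX : ∀ c, Measurable (X c)) (hi : iIndepFun X μ)
    (hX1 : ∀ c, ∀ᵐ ω ∂μ, |X c ω| ≤ 1) :
    ∀ᵐ ω ∂μ, ∀ σ B β T : ℝ, 1 / 3 < σ → σ ≤ 1 → β < σ →
      (∀ k l m : Wv, k ≠ 0 → l ≠ 0 → m ≠ 0 → k + l + m = 0 →
        |∫ ω, sgn X ω k l m ∂μ| * min (nsq k) (min (nsq l) (nsq m)) ^ (5 / 4 - σ / 2 : ℝ) ≤
          B * max (nsq k) (max (nsq l) (nsq m)) ^ β) →
      0 ≤ T → ∀ u : ℝ → Fld, IsEul (sgn X ω) σ T u →
        ∃ e : ℝ, ∀ t ∈ Set.Icc 0 T, Tendsto (fun n => En 0 n (u t)) atTop (𝓝 e) :=
  asm8_rand t_UNI2 t_HOE2 t_DIG t_FBR t_CVB t_BAL t_SQ t_MSB t_EF1 t_EF2 t_ECO Ω μ X hX hi hX1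

end Pool.Agent.Results.MP_fea353_an.RandomTriadsConserve
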