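import Pool.Agent.N983.RT.CS
import Pool.Agent.N983.WK.CVB
import Pool.Agent.N983.WK.BAL
import Pool.Agent.N983.WK.SQ
import Pool.Agent.N983.WK.MSB
import Pool.Agent.N983.WK.DG

/-!
Energy conservation for weak solutions of the Euler equations on the torus `(ℝ / 2πℤ) ^ 3` whose
wave vectors lie in a set `K` with few additive configurations: for different nonzero `p`, `q` there
are at most `B R ^ γ` wave vectors `m ∈ K` in the cube of size `R` with `p - m ∈ K` and `q - m ∈ K`.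
If the solution is bounded in the Sobolev space `H ^ σ`, `σ > 1 / 3 + γ / 6`, then it conserves the
energy. For `K = ℤ³`, `γ = 3`, this is the exponent `5 / 6` of Sulem and Frisch; it is smaller for
`γ < 3`, for instance if `K` has at most `B R ^ γ` points in the cube of size `R`.
-/

set_option autoImplicit false

namespace Pool.Agent.Results.MP_fea353_an.ThinSpectrumConserves

open Filter Topology Pool.Agent.N983.RT Pool.Agent.N983.WK

theorem result (K : Set Wv) (hK : ∀ k ∈ K, -k ∈ K) (h0 : (0 : Wv) ∉ K) (B γ : ℝ)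
    (hB : 0 ≤ B) (hγ : 0 ≤ γ) (hc : ∀ R : ℕ, 1 ≤ R → ∀ p ∈ cub R, ∀ q ∈ cub R, p ≠ q → p ≠ 0 →
      q ≠ 0 → (cnt K R p q : ℝ) ≤ B * (R : ℝ) ^ γ) (σ T : ℝ) (hσ : 1 / 3 + γ / 6 < σ) (hσ1 : σ ≤ 1)
    (hT : 0 ≤ T) (u : ℝ → Fld) (hu : IsEulOn K σ T u) :
    ∃ e : ℝ, ∀ t ∈ Set.Icc 0 T, Tendsto (fun n => En 0 n (u t)) atTop (𝓝 e) :=
  dg_main t_CS t_CVB t_BAL t_SQ t_MSB K hK h0 B γ hB hγ hc σ T hσ hσ1 hT u hu

end Pool.Agent.Results.MP_fea353_an.ThinSpectrumConserves
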